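import Pool.Agent.helper41.HFE.SpecK

/-!
# Project HFE (MP_3221a1_ag), row hfe:UXY: two big curves of different kinds are associated
-/

set_option autoImplicit false

open Polynomial Module Pool.Agent.HFN

namespace Pool.Agent.HFE

noncomputable section

theorem UXY_num1 (r v v' i j s s' β β' κ N : ℕ) (hi : κ ≤ i) (hj : κ ≤ j) (hs : s + β + 2 ≤ κ) (hs' : s' + β' + 2 ≤ κ) (hβ : 1 ≤ β) (hβ' : 1 ≤ β')
    (hB : r + 3 + i * β ≤ 2 * v + s) (hB' : r + 3 + j * β' ≤ 2 * v' + s') (hU : v + v' ≤ r + N) (hN : N ≤ β * β' + β + β' + 2) : False := by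
  zify at *
  have e1 : 0 ≤ ((κ : ℤ) - 2 - β) * (β' - 1) := mul_nonneg (by linarith) (by linarith)
  have e2 : 0 ≤ ((κ : ℤ) - 2 - β') * (β - 1) := mul_nonneg (by linarith) (by linarith)
  have e3 : (κ : ℤ) * β ≤ i * β := mul_le_mul_of_nonneg_right hi (by linarith)
  have e4 : (κ : ℤ) * β' ≤ j * β' := mul_le_mul_of_nonneg_right hj (by linarith)
  nlinarith

/-- rows (or columns) of the first curve: the other curve has `β' = 0` -/
theorem UXY_num2 (r v v' i s s' β κ N S : ℕ) (hi : κ ≤ i) (hs' : s' + 2 ≤ κ)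
    (hB : r + 3 + i * β ≤ 2 * v + s) (hB' : r + 3 ≤ 2 * v' + s') (hS : (i - 1) * s ≤ 2 * S) (hU : v + v' + S ≤ r + N) (hN : N ≤ β + 2) :
    β = 0 ∧ s = 0 ∧ 2 ≤ s' := by
  obtain ⟨k, rfl⟩ : ∃ k, i = k + 2 := ⟨i - 2, by omega⟩
  have e1 : k + 2 - 1 = k + 1 := by omega
  rw [e1] at hS
  have h1 : 2 + k * β + k * s ≤ s' := by nlinarith
  have h2 : s' ≤ k := by omega
  have hβ : β = 0 := by
    by_contra h
    have : k * 1 ≤ k * β := Nat.mul_le_mul_left _ (by omega)
    omega
  have hs0 : s = 0 := by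
    by_contra h
    have : k * 1 ≤ k * s := Nat.mul_le_mul_left _ (by omega)
    omega
  exact ⟨hβ, hs0, by omega⟩

open Classical in
/-- the number of the common points -/
def UXY_N (Z : Finset (ℂ × ℂ)) (g g' : AA) : ℕ := (Z.filter fun z => ev z g = 0 ∧ ev z g' = 0).card

open Classical in
/-- counting: the rows in `U` have no point on `g` and at most one on `g'` -/
theorem UXY_cnt (Z : Finset (ℂ × ℂ)) (g g' : AA) (U : Finset ℂ) (hU : ∀ y ∈ U, ∀ z ∈ Z, z.2 = y → ev z g ≠ 0)
    (h1 : ∀ y, (Z.filter fun z => z.2 = y ∧ ev z g' = 0).card ≤ 1) :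
    nn Z g + nn Z g' + ∑ y ∈ U, (mr Z y - 1) ≤ Z.card + UXY_N Z g g' := by
  have e1 : nn Z g = (Z.filter fun z => ev z g = 0).card := by
    unfold nn
    congr
  have e2 : nn Z g' = (Z.filter fun z => ev z g' = 0).card := by
    unfold nn
    congr
  have h2 := Finset.card_union_add_card_inter (Z.filter fun z => ev z g = 0) (Z.filter fun z => ev z g' = 0)
  rw [← Finset.filter_and] at h2
  unfold UXY_N
  set R : Finset (ℂ × ℂ) := U.biUnion fun y => Z.filter fun z => z.2 = y ∧ ev z g' ≠ 0 with hR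
  have h3 : R.card = ∑ y ∈ U, (Z.filter fun z => z.2 = y ∧ ev z g' ≠ 0).card := by
    rw [hR]
    refine Finset.card_biUnion fun y _ y' _ hyy' => ?_
    show Disjoint _ _
    rw [Finset.disjoint_left]
    intro z hz hz'
    rw [Finset.mem_filter] at hz hz'
    exact hyy' (hz.2.1.symm.trans hz'.2.1)
  have h4 : ∑ y ∈ U, (mr Z y - 1) ≤ R.card := by
    rw [h3]
    refine Finset.sum_le_sum fun y _ => ?_
    have h5 : mr Z y = (Z.filter fun z => z.2 = y).card := by
      unfold mr
      congr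
    have h6 : (Z.filter fun z => z.2 = y).card = (Z.filter fun z => z.2 = y ∧ ev z g' = 0).card + (Z.filter fun z => z.2 = y ∧ ev z g' ≠ 0).card := by
      rw [← Finset.card_filter_add_card_filter_not (s := Z.filter fun z => z.2 = y) (fun z => ev z g' = 0), Finset.filter_filter, Finset.filter_filter]
    have h7 := h1 y
    omega
  have h5 : ((Z.filter fun z => ev z g = 0) ∪ (Z.filter fun z => ev z g' = 0)).card + R.card ≤ Z.card := by
    rw [← Finset.card_union_of_disjoint]
    · refine Finset.card_le_card (Finset.union_subset (Finset.union_subset (Finset.filter_subset _ _) (Finset.filter_subset _ _)) ?_)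
      intro z hz
      rw [hR, Finset.mem_biUnion] at hz
      obtain ⟨y, _, hz⟩ := hz
      exact (Finset.mem_filter.1 hz).1
    · rw [Finset.disjoint_left]
      intro z hz hz'
      rw [hR, Finset.mem_biUnion] at hz'
      obtain ⟨y, hy, hz'⟩ := hz'
      rw [Finset.mem_filter] at hz'
      rw [Finset.mem_union, Finset.mem_filter, Finset.mem_filter] at hz
      rcases hz with hz | hz
      · exact hU y hy z hz'.1 hz'.2.1 hz.2
      · exact hz'.2.2 hz.2
  omega

/-- a curve with `dX = 1` meets every row at most once -/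
theorem UXY_row (hHIT : HIT_stmt) (Z : Finset (ℂ × ℂ)) (g : AA) (hg : Irreducible g) (hX : dX g = 1) (hY : 1 ≤ dY g) (y : ℂ)
    [DecidablePred fun z : ℂ × ℂ => z.2 = y ∧ ev z g = 0] : (Z.filter fun z => z.2 = y ∧ ev z g = 0).card ≤ 1 := by
  classical
  obtain ⟨-, i2⟩ := hHIT g hg (by omega) hY
  have h3 : Set.InjOn Prod.fst ((Z.filter fun z => z.2 = y ∧ ev z g = 0 : Finset (ℂ × ℂ)) : Set (ℂ × ℂ)) := by
    intro a ha a' ha' e
    rw [Finset.mem_coe, Finset.mem_filter] at ha ha'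
    exact Prod.ext e (by rw [ha.2.1, ha'.2.1])
  rw [← Finset.card_image_of_injOn h3]
  refine (i2 y _ fun x hx => ?_).trans hX.le
  rw [Finset.mem_image] at hx
  obtain ⟨a, ha, rfl⟩ := hx
  rw [Finset.mem_filter] at ha
  have h4 : (a.1, y) = a := Prod.ext rfl ha.2.1.symm
  rw [h4]
  exact ha.2.2

theorem UXY_swf (Z : Finset (ℂ × ℂ)) (P : ℂ × ℂ → Prop) [DecidableEq (ℂ × ℂ)] [DecidablePred P] [DecidablePred fun z : ℂ × ℂ => P z.swap] :
    ((Z.image Prod.swap).filter P).card = (Z.filter fun z => P z.swap).card := by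
  rw [← Finset.card_image_of_injective (Z.filter fun z => P z.swap) Prod.swap_injective]
  congr 1
  ext z
  rw [Finset.mem_filter, Finset.mem_image, Finset.mem_image]
  constructor
  · rintro ⟨⟨w, hw, rfl⟩, h⟩
    exact ⟨w, Finset.mem_filter.2 ⟨hw, h⟩, rfl⟩
  · rintro ⟨w, hw, rfl⟩
    rw [Finset.mem_filter] at hw
    exact ⟨⟨w, hw.1, rfl⟩, hw.2⟩

theorem UXY_nn (Z : Finset (ℂ × ℂ)) (f : AA) [DecidableEq (ℂ × ℂ)] : nn (Z.image Prod.swap) (sw f) = nn Z f := by
  classical
  have e1 : nn (Z.image Prod.swap) (sw f) = ((Z.image Prod.swap).filter fun z => ev z (sw f) = 0).card := by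
    unfold nn
    congr
  have e2 : nn Z f = (Z.filter fun z => ev z f = 0).card := by
    unfold nn
    congr
  rw [e1, e2, UXY_swf]
  simp only [ev_sw, Prod.swap_swap]

theorem UXY_Nsw (Z : Finset (ℂ × ℂ)) (g g' : AA) [DecidableEq (ℂ × ℂ)] : UXY_N (Z.image Prod.swap) (sw g') (sw g) = UXY_N Z g g' := by
  classical
  have e1 : UXY_N (Z.image Prod.swap) (sw g') (sw g) = ((Z.image Prod.swap).filter fun z => ev z (sw g') = 0 ∧ ev z (sw g) = 0).card := by
    unfold UXY_N
    congr
  have e2 : UXY_N Z g g' = (Z.filter fun z => ev z g = 0 ∧ ev z g' = 0).card := by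
    unfold UXY_N
    congr
  rw [e1, e2, UXY_swf]
  simp only [ev_sw, Prod.swap_swap]
  congr 1
  ext z
  rw [Finset.mem_filter, Finset.mem_filter]
  tauto

theorem UXY (hBZT : BZT_stmt) (hHIT : HIT_stmt) : UXY_stmt := by
  classical
  intro κ Z g g' hκ hg hg'
  obtain ⟨gi, gX, gY, i, s, U, hi, hs, hB, hU, hS⟩ := hg
  obtain ⟨gi', gX', gY', j, s', U', hj, hs', hB', hU', hS'⟩ := hg'
  rw [UXY_nn, Finset.card_image_of_injective _ Prod.swap_injective] at hB'
  rw [dX_sw] at gX'
  rw [dY_sw] at gY' hs' hB'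
  have gi2 : Irreducible g' := (MulEquiv.irreducible_iff sw).1 gi'
  have gi3 : Irreducible (sw g) := (MulEquiv.irreducible_iff sw).2 gi
  by_contra hna
  have hnd : ¬ g ∣ g' := fun h => hna (gi.associated_of_dvd gi2 h)
  have hN : UXY_N Z g g' ≤ dX g' * dY g + dY g' * dX g := by
    have hS0 := hBZT g g' gi hnd (dX g') (dY g') (mem_V.2 ⟨le_refl _, le_refl _⟩) ∅
      (Z.filter fun z => ev z g = 0 ∧ ev z g' = 0) (Finset.disjoint_empty_left _)
      (fun z hz => absurd hz (Finset.notMem_empty z)) (fun z hz => (Finset.mem_filter.1 hz).2)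
    rw [Finset.card_empty, mul_zero, zero_add] at hS0
    have e1 : UXY_N Z g g' = (Z.filter fun z => ev z g = 0 ∧ ev z g' = 0).card := by
      unfold UXY_N
      congr
    rw [e1]
    exact hS0
  rw [gX, gX'] at hN
  obtain ⟨β, hβ⟩ : ∃ β, dY g = β + 1 := ⟨dY g - 1, by omega⟩
  obtain ⟨β', hβ'⟩ : ∃ β', dX g' = β' + 1 := ⟨dX g' - 1, by omega⟩
  rw [hβ, hβ'] at hN
  rw [hβ] at hs hB
  rw [hβ'] at hs' hB'
  rw [Nat.add_sub_cancel] at hB hB'
  have hN' : UXY_N Z g g' ≤ β * β' + β + β' + 2 := by nlinarith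
  -- the union
  have hUn : nn Z g + nn Z g' ≤ Z.card + UXY_N Z g g' := by
    have e1 : nn Z g = (Z.filter fun z => ev z g = 0).card := by
      unfold nn
      congr
    have e2 : nn Z g' = (Z.filter fun z => ev z g' = 0).card := by
      unfold nn
      congr
    have e3 : UXY_N Z g g' = (Z.filter fun z => ev z g = 0 ∧ ev z g' = 0).card := by
      unfold UXY_N
      congr
    have h1 := Finset.card_union_add_card_inter (Z.filter fun z => ev z g = 0) (Z.filter fun z => ev z g' = 0)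
    rw [← Finset.filter_and] at h1
    have h2 : ((Z.filter fun z => ev z g = 0) ∪ (Z.filter fun z => ev z g' = 0)).card ≤ Z.card :=
      Finset.card_le_card (Finset.union_subset (Finset.filter_subset _ _) (Finset.filter_subset _ _))
    omega
  -- rows
  have hR : β' = 0 → nn Z g + nn Z g' + ∑ y ∈ U, (mr Z y - 1) ≤ Z.card + UXY_N Z g g' := by
    intro h0
    refine UXY_cnt Z g g' U hU fun y => ?_
    exact UXY_row hHIT Z g' gi2 (by omega) (by omega) y
  -- columns
  have hC : β = 0 → nn Z g' + nn Z g + ∑ x ∈ U', (mr (Z.image Prod.swap) x - 1) ≤ Z.card + UXY_N Z g g' := by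
    intro h0
    have h1 := UXY_cnt (Z.image Prod.swap) (sw g') (sw g) U' hU' fun y =>
      UXY_row hHIT (Z.image Prod.swap) (sw g) gi3 (by rw [dX_sw]; omega) (by rw [dY_sw]; omega) y
    rw [UXY_nn, UXY_nn, UXY_Nsw, Finset.card_image_of_injective _ Prod.swap_injective] at h1
    exact h1
  by_cases h' : β' = 0
  · subst h'
    rw [mul_zero, add_zero] at hB'
    rw [mul_zero, zero_add, add_zero] at hN'
    obtain ⟨h1, h2, h3⟩ := UXY_num2 Z.card (nn Z g) (nn Z g') i s s' β κ _ _ hi (by omega) hB hB' hS (hR rfl) hN'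
    subst h1
    obtain ⟨-, h4, h5⟩ := UXY_num2 Z.card (nn Z g') (nn Z g) j s' s 0 κ _ _ hj (by omega) (by rw [mul_zero, add_zero]; exact hB')
      (by rw [mul_zero, add_zero] at hB; exact hB) hS' (hC rfl) hN'
    omega
  · by_cases h : β = 0
    · subst h
      rw [mul_zero, add_zero] at hB
      rw [zero_mul, zero_add, zero_add] at hN'
      obtain ⟨h1, -, -⟩ := UXY_num2 Z.card (nn Z g') (nn Z g) j s' s β' κ _ _ hj (by omega) hB' hB hS' (hC rfl) hN'
      exact h' h1
    · exact UXY_num1 Z.card (nn Z g) (nn Z g') i j s s' β β' κ _ hi hj (by omega) (by omega) (by omega) (by omega) hB hB' hUn hN'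

end

end Pool.Agent.HFE
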